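import Pool.Agent.Lib.MP_24547c_co.Main

namespace Pool.Agent.Results.MP_24547c_co.SupersolvableNormal

open Pool.Agent.Lib.MP_24547c_co

/-- Every supersolvable tangential `k`-block over a finite field `GF(q)` is normal. -/
theorem result (F : Type) [Field F] [Fintype F] (k : ℕ) (_hk : 1 ≤ k)
    (α : Type) [Fintype α] (M : Matroid α)
    (hT : IsTangentialBlock F k M) (hS : IsSupersolvable M) :
    IsNormal (Fintype.card F) k M :=
  normal_of_supersolvable hT hS

end Pool.Agent.Results.MP_24547c_co.SupersolvableNormal
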